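import Mathlib

/-!
# Closed walks through every vertex exactly twice in cubic graphs with a perfect matching

`D = V × Bool` are the darts of a 2-factor: `h (v, i)` is the `i`-th neighbour of `v` in the
2-factor, `m v` is the partner of `v` in the complementary perfect matching.
-/

namespace Pool.Agent.H40.PF

open Function

variable {V : Type*}

/-- data: a 2-factor (labelled) and a perfect matching of a cubic graph. `al` is the reversal of
the darts of the 2-factor. -/
structure Frame (G : SimpleGraph V) where
  m : V → V
  h : V → Bool → V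
  al : V × Bool → V × Bool
  madj : ∀ v, G.Adj v (m v)
  hadj : ∀ v i, G.Adj v (h v i)
  mm : ∀ v, m (m v) = v
  hm : ∀ v i, h v i ≠ m v
  hh : ∀ v, h v false ≠ h v true
  all : ∀ v w, G.Adj v w → w = m v ∨ ∃ i, w = h v i
  al_fst : ∀ d, (al d).1 = h d.1 d.2
  al_h : ∀ d, h (al d).1 (al d).2 = d.1
  al_al : ∀ d, al (al d) = d

namespace Frame

variable {G : SimpleGraph V} (F : Frame G)

theorem m_ne (v : V) : F.m v ≠ v := (F.madj v).ne'

theorem h_ne (v : V) (i : Bool) : F.h v i ≠ v := (F.hadj v i).ne'

theorem al_ne (d : V × Bool) : F.al d ≠ d := by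
  intro h
  have h1 := F.al_fst d
  rw [h] at h1
  exact F.h_ne _ _ h1.symm

/-- crossing the matching edge, with a switch function -/
def be (s : V → Bool) (d : V × Bool) : V × Bool := (F.m d.1, xor d.2 (s d.1))

theorem be_fst (s : V → Bool) (d : V × Bool) : (F.be s d).1 = F.m d.1 := rfl

theorem be_be {s : V → Bool} (hs : ∀ v, s (F.m v) = s v) (d : V × Bool) :
    F.be s (F.be s d) = d := by
  unfold be
  simp only [F.mm, hs]
  ext <;> simp

theorem be_ne (s : V → Bool) (d : V × Bool) : F.be s d ≠ d := by
  intro h
  have h1 : (F.be s d).1 = d.1 := by rw [h]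
  exact F.m_ne _ h1

/-- one step -/
def Step (s : V → Bool) (x y : V × Bool) : Prop := y = F.al x ∨ y = F.be s x

theorem Step.symm' {s : V → Bool} (hs : ∀ v, s (F.m v) = s v) {x y : V × Bool}
    (h : F.Step s x y) : F.Step s y x := by
  rcases h with h | h
  · left; rw [h, F.al_al]
  · right; rw [h, F.be_be hs]

/-- a set with fixed-point-free involution has even cardinality -/
theorem even_of_invol {α : Type*} [DecidableEq α] (C : Finset α) (f : α → α)
    (hf : ∀ x ∈ C, f x ∈ C) (hff : ∀ x ∈ C, f (f x) = x) (hne : ∀ x ∈ C, f x ≠ x) :
    Even C.card := by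
  have h : ∑ x ∈ C, (1 : ZMod 2) = 0 := by
    refine Finset.sum_involution (fun x _ => f x) ?_ ?_ ?_ ?_
    · intro x hx; decide
    · intro x hx _; exact hne x hx
    · intro x hx; exact hf x hx
    · intro x hx; exact hff x hx
  rw [Finset.sum_const, nsmul_eq_mul, mul_one] at h
  exact (ZMod.natCast_eq_zero_iff_even).1 h

/-- the reachable set -/
def Reach (s : V → Bool) (x y : V × Bool) : Prop := Relation.ReflTransGen (F.Step s) x y

theorem Reach.symm' {s : V → Bool} (hs : ∀ v, s (F.m v) = s v) {x y : V × Bool}
    (h : F.Reach s x y) : F.Reach s y x := by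
  unfold Reach at *
  induction h with
  | refl => exact Relation.ReflTransGen.refl
  | tail _ h2 ih => exact Relation.ReflTransGen.head (Step.symm' F hs h2) ih

/-- the switch at the matching edge of `v` -/
def sw [DecidableEq V] (s : V → Bool) (v : V) : V → Bool :=
  fun w => if w = v ∨ w = F.m v then !(s w) else s w

theorem sw_m [DecidableEq V] {s : V → Bool} (hs : ∀ v, s (F.m v) = s v) (v w : V) :
    F.sw s v (F.m w) = F.sw s v w := by
  unfold sw
  have h1 : (F.m w = v ∨ F.m w = F.m v) ↔ (w = v ∨ w = F.m v) := by
    constructor
    · rintro (h | h)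
      · right; rw [← h, F.mm]
      · left; rw [← F.mm w, h, F.mm]
    · rintro (h | h)
      · right; rw [h]
      · left; rw [h, F.mm]
  by_cases h : w = v ∨ w = F.m v
  · rw [if_pos h, if_pos (h1.2 h), hs]
  · rw [if_neg h, if_neg (fun h2 => h (h1.1 h2)), hs]

/-- merging lemma -/
theorem merge [Fintype V] [DecidableEq V] {s : V → Bool} (hs : ∀ v, s (F.m v) = s v)
    {d : V × Bool} (hd : ¬ F.Reach s d (d.1, !d.2)) :
    (∀ y, F.Reach s d y → F.Reach (F.sw s d.1) d y) ∧ F.Reach (F.sw s d.1) d (d.1, !d.2) := by
  classical
  -- common steps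
  let R : V × Bool → V × Bool → Prop := fun x y =>
    y = F.al x ∨ (y = F.be s x ∧ x.1 ≠ d.1 ∧ x.1 ≠ F.m d.1)
  have hR1 : ∀ x y, R x y → F.Step s x y := by
    rintro x y (h | ⟨h, _⟩)
    · left; exact h
    · right; exact h
  have hR2 : ∀ x y, R x y → F.Step (F.sw s d.1) x y := by
    rintro x y (h | ⟨h, h1, h2⟩)
    · left; exact h
    · right
      rw [h]
      unfold be sw
      rw [if_neg]
      rintro (h3 | h3)
      · exact h1 h3
      · exact h2 h3
  let C : Finset (V × Bool) := Finset.univ.filter (fun y => Relation.ReflTransGen R d y)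
  have memC : ∀ y, y ∈ C ↔ Relation.ReflTransGen R d y := by
    intro y; simp [C]
  have hdC : d ∈ C := (memC d).2 Relation.ReflTransGen.refl
  have hal : ∀ x ∈ C, F.al x ∈ C := by
    intro x hx
    rw [memC] at hx ⊢
    exact Relation.ReflTransGen.tail hx (Or.inl rfl)
  have hCs : ∀ x ∈ C, F.Reach s d x := by
    intro x hx
    rw [memC] at hx
    exact Relation.ReflTransGen.mono hR1 _ _ hx
  have hne1 : (d.1, !d.2) ∉ C := fun h => hd (hCs _ h)
  have hne2 : F.be s (d.1, !d.2) ∉ C := by
    intro h
    apply hd
    have := hCs _ h
    refine Relation.ReflTransGen.tail this (Or.inr ?_)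
    rw [F.be_be hs]
  -- the other end of the removed edge
  have hd' : F.be s d ∈ C := by
    by_contra hcon
    have he1 : Even C.card := even_of_invol C F.al hal (fun x _ => F.al_al x) (fun x _ => F.al_ne x)
    have he2 : Even (C.erase d).card := by
      refine even_of_invol (C.erase d) (F.be s) ?_ (fun x _ => F.be_be hs x) (fun x _ => F.be_ne s x)
      intro x hx
      rw [Finset.mem_erase] at hx ⊢
      refine ⟨?_, ?_⟩
      · intro h
        apply hcon
        rw [← h, F.be_be hs]
        exact hx.2
      · rw [memC]
        have hx2 := hx.2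
        rw [memC] at hx2
        refine Relation.ReflTransGen.tail hx2 (Or.inr ⟨rfl, ?_, ?_⟩)
        · intro h
          have : x = d ∨ x = (d.1, !d.2) := by
            rcases x with ⟨a, b⟩
            simp only at h
            subst h
            cases b <;> rcases d with ⟨d1, d2⟩ <;> cases d2 <;> simp
          rcases this with h1 | h1
          · exact hx.1 h1
          · exact hne1 (h1 ▸ hx.2)
        · intro h
          have : F.be s x = d ∨ F.be s x = (d.1, !d.2) := by
            have h3 : (F.be s x).1 = d.1 := by rw [F.be_fst, h, F.mm]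
            generalize F.be s x = z at h3
            rcases z with ⟨a, b⟩
            simp only at h3
            subst h3
            cases b <;> rcases d with ⟨d1, d2⟩ <;> cases d2 <;> simp
          rcases this with h1 | h1
          · apply hcon; rw [← h1, F.be_be hs]; exact hx.2
          · apply hne2; rw [← h1, F.be_be hs]; exact hx.2
    rw [Finset.card_erase_of_mem hdC] at he2
    have hpos : 0 < C.card := Finset.card_pos.2 ⟨d, hdC⟩
    rw [Nat.even_iff] at he1 he2
    omega
  constructor
  · intro y hy
    have : y ∈ C := by
      unfold Reach at hy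
      induction hy with
      | refl => exact hdC
      | tail h1 h2 ih =>
        rename_i b c
        rcases h2 with h2 | h2
        · rw [h2]; exact hal _ ih
        · by_cases hb1 : b.1 = d.1
          · have : b = d ∨ b = (d.1, !d.2) := by
              rcases b with ⟨a, b⟩
              simp only at hb1
              subst hb1
              cases b <;> rcases d with ⟨d1, d2⟩ <;> cases d2 <;> simp
            rcases this with h3 | h3
            · rw [h2, h3]; exact hd'
            · exact absurd ih (h3 ▸ hne1)
          · by_cases hb2 : b.1 = F.m d.1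
            · have : F.be s b = d ∨ F.be s b = (d.1, !d.2) := by
                have h3 : (F.be s b).1 = d.1 := by rw [F.be_fst, hb2, F.mm]
                generalize F.be s b = z at h3
                rcases z with ⟨a, b⟩
                simp only at h3
                subst h3
                cases b <;> rcases d with ⟨d1, d2⟩ <;> cases d2 <;> simp
              rcases this with h3 | h3
              · rw [h2, h3]; exact hdC
              · exfalso; apply hne2; rw [← h3, F.be_be hs]; exact ih
            · rw [memC] at ih ⊢
              exact Relation.ReflTransGen.tail ih (Or.inr ⟨h2, hb1, hb2⟩)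
    rw [memC] at this
    exact Relation.ReflTransGen.mono hR2 _ _ this
  · have h1 : F.Reach (F.sw s d.1) d (F.be s d) := by
      have := hd'
      rw [memC] at this
      exact Relation.ReflTransGen.mono hR2 _ _ this
    refine Relation.ReflTransGen.tail h1 (Or.inr ?_)
    unfold be sw
    simp only [F.mm, hs, or_true, if_true]
    ext
    · rfl
    · simp

end Frame

end Pool.Agent.H40.PF
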