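import Mathlib
import Pool.Agent.H9.MMN.PM
import Pool.Agent.H9.MMN.Tutte
import Pool.Agent.H40.PF.Core

/-!
# Perfect matchings through a prescribed edge of a bridgeless cubic graph
-/

namespace Pool.Agent.H40.PF

open SimpleGraph Pool.Agent.H9.MMN

variable {V : Type*}

/-- no edge is a bridge -/
def Bridgeless (G : SimpleGraph V) : Prop :=
  ∀ x y, G.Adj x y → (G.deleteEdges {s(x, y)}).Reachable x y

theorem exists_cross {H : SimpleGraph V} (K : V → Prop) {a b : V} (p : H.Walk a b) (ha : K a)
    (hb : ¬ K b) : ∃ c d, H.Adj c d ∧ K c ∧ ¬ K d := by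
  induction p with
  | nil => exact absurd ha hb
  | @cons u v w huv p ih =>
    by_cases hv : K v
    · exact ih hv hb
    · exact ⟨u, v, huv, ha, hv⟩

variable [Fintype V] [DecidableEq V] (G : SimpleGraph V) [DecidableRel G.Adj]

/-- ordered pairs of adjacent vertices leaving `K` -/
def outPairs (K : Finset V) : Finset (V × V) :=
  (K ×ˢ Kᶜ).filter (fun p => G.Adj p.1 p.2)

/-- ordered pairs of adjacent vertices inside `K` -/
def inPairs (K : Finset V) : Finset (V × V) :=
  (K ×ˢ K).filter (fun p => G.Adj p.1 p.2)

theorem mem_outPairs (K : Finset V) (p : V × V) :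
    p ∈ outPairs G K ↔ p.1 ∈ K ∧ p.2 ∉ K ∧ G.Adj p.1 p.2 := by
  unfold outPairs
  rw [Finset.mem_filter, Finset.mem_product, Finset.mem_compl, and_assoc]

theorem mem_inPairs (K : Finset V) (p : V × V) :
    p ∈ inPairs G K ↔ p.1 ∈ K ∧ p.2 ∈ K ∧ G.Adj p.1 p.2 := by
  unfold inPairs
  rw [Finset.mem_filter, Finset.mem_product, and_assoc]

theorem even_inPairs (K : Finset V) : Even (inPairs G K).card := by
  refine Frame.even_of_invol (inPairs G K) (fun p => (p.2, p.1)) ?_ ?_ ?_
  · intro p hp
    rw [mem_inPairs] at hp ⊢
    exact ⟨hp.2.1, hp.1, hp.2.2.symm⟩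
  · intro p _; rfl
  · intro p hp h
    rw [mem_inPairs] at hp
    have : p.2 = p.1 := congrArg Prod.fst h
    exact hp.2.2.ne this.symm

theorem card_fiber (K : Finset V) (hcub : ∀ v, G.degree v = 3) :
    (inPairs G K).card + (outPairs G K).card = 3 * K.card := by
  have h : (inPairs G K) ∪ (outPairs G K) = (K.sigma (fun v => G.neighborFinset v)).image
      (fun p => (p.1, p.2)) := by
    ext p
    rw [Finset.mem_union, mem_inPairs, mem_outPairs, Finset.mem_image]
    constructor
    · rintro (⟨h1, h2, h3⟩ | ⟨h1, h2, h3⟩)
      · exact ⟨⟨p.1, p.2⟩, by simp [h1, h3], rfl⟩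
      · exact ⟨⟨p.1, p.2⟩, by simp [h1, h3], rfl⟩
    · rintro ⟨⟨a, b⟩, hab, rfl⟩
      simp only [Finset.mem_sigma, mem_neighborFinset] at hab
      by_cases hb : b ∈ K
      · left; exact ⟨hab.1, hb, hab.2⟩
      · right; exact ⟨hab.1, hb, hab.2⟩
  have hd : Disjoint (inPairs G K) (outPairs G K) := by
    rw [Finset.disjoint_left]
    intro p h1 h2
    rw [mem_inPairs] at h1
    rw [mem_outPairs] at h2
    exact h2.2.1 h1.2.1
  rw [← Finset.card_union_of_disjoint hd, h, Finset.card_image_of_injective]
  · rw [Finset.card_sigma]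
    simp only [card_neighborFinset_eq_degree, hcub, Finset.sum_const, smul_eq_mul]
    ring
  · rintro ⟨a, b⟩ ⟨c, d⟩ h
    simp only [Prod.mk.injEq] at h
    obtain ⟨rfl, rfl⟩ := h
    rfl

theorem three_le_out (hcub : ∀ v, G.degree v = 3) (hbr : Bridgeless G) (K : Finset V)
    (hK : Odd K.card) : 3 ≤ (outPairs G K).card := by
  have h1 := card_fiber G K hcub
  obtain ⟨a, ha⟩ := even_inPairs G K
  obtain ⟨b, hb⟩ := hK
  have hodd : (outPairs G K).card % 2 = 1 := by omega
  have hne1 : (outPairs G K).card ≠ 1 := by
    intro h
    rw [Finset.card_eq_one] at h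
    obtain ⟨⟨x, y⟩, hxy⟩ := h
    have hm : (x, y) ∈ outPairs G K := by rw [hxy]; exact Finset.mem_singleton_self _
    rw [mem_outPairs] at hm
    obtain ⟨p⟩ := hbr x y hm.2.2
    obtain ⟨c, d, hcd, hc, hd⟩ := exists_cross (fun v => v ∈ K) p hm.1 hm.2.1
    rw [deleteEdges_adj] at hcd
    have : (c, d) ∈ outPairs G K := by
      rw [mem_outPairs]
      exact ⟨hc, hd, hcd.1⟩
    rw [hxy, Finset.mem_singleton, Prod.mk.injEq] at this
    apply hcd.2
    rw [this.1, this.2]
    exact Set.mem_singleton _
  omega

/-- every edge of a bridgeless cubic graph is in a perfect matching (Schönberger) -/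
theorem exists_pm (hcub : ∀ v, G.degree v = 3) (hbr : Bridgeless G) {u v : V}
    (huv : G.Adj u v) : ∃ f : V → V, (∀ w, G.Adj w (f w)) ∧ (∀ w, f (f w) = w) ∧ f u = v := by
  classical
  have hne : u ≠ v := huv.ne
  set Z : Finset V := Finset.univ \ {u, v} with hZ
  have memZ : ∀ w, w ∈ Z ↔ w ≠ u ∧ w ≠ v := by
    intro w
    simp [hZ]
  have hPM : HasPM G Z := by
    by_contra hcon
    obtain ⟨A, C, hP, hlt⟩ := exists_violator G Z hcon
    have hpar := hP.parity
    have heven : Even (Fintype.card V) := by
      have := G.sum_degrees_eq_twice_card_edges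
      simp only [hcub, Finset.sum_const, Finset.card_univ, smul_eq_mul] at this
      rw [Nat.even_iff]
      omega
    have hZc : Z.card + 2 = Fintype.card V := by
      have h1 : ({u, v} : Finset V).card = 2 := Finset.card_pair hne
      have h2 := Finset.card_sdiff_add_card_eq_card (Finset.subset_univ ({u, v} : Finset V))
      rw [Finset.card_univ] at h2
      rw [hZ]
      omega
    have hcount : A.card + 2 ≤ oddCount C := by
      rw [Nat.even_iff] at heven
      omega
    set S : Finset V := A ∪ {u, v} with hS
    have hScard : S.card ≤ A.card + 2 := by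
      rw [hS]
      refine (Finset.card_union_le _ _).trans ?_
      rw [Finset.card_pair hne]
    set D := C.filter (fun K => Odd K.card) with hD
    have hDc : A.card + 2 ≤ D.card := hcount
    -- pairs leaving the odd parts, reversed, lie in pairs leaving S
    have hsub : (D.biUnion (fun K => outPairs G K)).card + 2 ≤ 3 * S.card := by
      have h1 := card_fiber G S hcub
      have h2 : 2 ≤ (inPairs G S).card := by
        have : ({(u, v), (v, u)} : Finset (V × V)) ⊆ inPairs G S := by
          intro p hp
          rw [Finset.mem_insert, Finset.mem_singleton] at hp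
          rw [mem_inPairs]
          have hu : u ∈ S := by simp [hS]
          have hv : v ∈ S := by simp [hS]
          rcases hp with rfl | rfl
          · exact ⟨hu, hv, huv⟩
          · exact ⟨hv, hu, huv.symm⟩
        have h3 := Finset.card_le_card this
        rw [Finset.card_pair] at h3
        · exact h3
        · intro h
          rw [Prod.mk.injEq] at h
          exact hne h.1
      have h3 : (D.biUnion (fun K => outPairs G K)).card ≤ (outPairs G S).card := by
        refine Finset.card_le_card_of_injOn (fun p => (p.2, p.1)) ?_ ?_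
        · intro p hp
          rw [Finset.mem_coe, Finset.mem_biUnion] at hp
          obtain ⟨K, hK, hp⟩ := hp
          rw [mem_outPairs] at hp
          rw [Finset.mem_coe, mem_outPairs]
          have hKC : K ∈ C := (Finset.mem_filter.mp hK).1
          have hp1 := Finset.mem_sdiff.mp (hP.mem K hKC hp.1)
          refine ⟨?_, ?_, hp.2.2.symm⟩
          · by_contra hnS
            have hn1 : p.2 ∉ A := fun h => hnS (by rw [hS, Finset.mem_union]; left; exact h)
            have hn2 : p.2 ∈ Z := by
              rw [memZ]
              constructor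
              · intro h; apply hnS; rw [hS, Finset.mem_union]; right; simp [h]
              · intro h; apply hnS; rw [hS, Finset.mem_union]; right; simp [h]
            obtain ⟨L, hL, hpL⟩ := hP.cover _ hn2 hn1
            have := hP.nadj K hKC L hL _ hp.1 _ hpL hp.2.2
            exact hp.2.1 (this ▸ hpL)
          · intro h
            rw [hS, Finset.mem_union] at h
            rcases h with h | h
            · exact hp1.2 h
            · have h4 := (memZ _).1 hp1.1
              rw [Finset.mem_insert, Finset.mem_singleton] at h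
              rcases h with h | h
              · exact h4.1 h
              · exact h4.2 h
        · intro p _ q _ h
          simp only [Prod.mk.injEq] at h
          exact Prod.ext h.2 h.1
      omega
    have hlow : 3 * D.card ≤ (D.biUnion (fun K => outPairs G K)).card := by
      rw [Finset.card_biUnion]
      · calc 3 * D.card = ∑ _K ∈ D, 3 := by rw [Finset.sum_const, smul_eq_mul, mul_comm]
          _ ≤ _ := Finset.sum_le_sum (fun K hK =>
            three_le_out G hcub hbr K (Finset.mem_filter.mp hK).2)
      · intro K hK L hL hKL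
        change Disjoint _ _
        rw [Finset.disjoint_left]
        intro p h1 h2
        rw [mem_outPairs] at h1 h2
        exact hKL (hP.disj K (Finset.mem_filter.mp hK).1 L (Finset.mem_filter.mp hL).1 _ h1.1 h2.1)
    omega
  obtain ⟨f, hf⟩ := hPM
  have hfu : ∀ w, w ≠ u → w ≠ v → f w ≠ u ∧ f w ≠ v := fun w h1 h2 =>
    (memZ _).1 (hf w ((memZ w).2 ⟨h1, h2⟩)).1
  refine ⟨fun w => if w = u then v else if w = v then u else f w, ?_, ?_, ?_⟩
  · intro w
    by_cases h1 : w = u
    · subst h1; simpa using huv
    · by_cases h2 : w = v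
      · subst h2; simp only [h1, if_false, if_true]; exact huv.symm
      · simp only [h1, h2, if_false]
        exact (hf w ((memZ w).2 ⟨h1, h2⟩)).2.1
  · intro w
    by_cases h1 : w = u
    · subst h1; simp [hne.symm]
    · by_cases h2 : w = v
      · subst h2; simp [h1]
      · simp only [h1, h2, if_false]
        rw [if_neg (hfu w h1 h2).1, if_neg (hfu w h1 h2).2]
        exact (hf w ((memZ w).2 ⟨h1, h2⟩)).2.2
  · simp

/-- the frame of a perfect matching -/
theorem exists_frame (hcub : ∀ v, G.degree v = 3) {f : V → V} (h1 : ∀ w, G.Adj w (f w))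
    (h2 : ∀ w, f (f w) = w) : ∃ F : Frame G, ∀ v, F.m v = f v := by
  classical
  have key : ∀ v, ∃ a b, G.Adj v a ∧ G.Adj v b ∧ a ≠ b ∧ a ≠ f v ∧ b ≠ f v ∧
      ∀ w, G.Adj v w → w = f v ∨ w = a ∨ w = b := by
    intro v
    have hc : ((G.neighborFinset v).erase (f v)).card = 2 := by
      rw [Finset.card_erase_of_mem (by rw [mem_neighborFinset]; exact h1 v),
        card_neighborFinset_eq_degree, hcub]
    rw [Finset.card_eq_two] at hc
    obtain ⟨a, b, hab, hN⟩ := hc
    have ha : a ∈ (G.neighborFinset v).erase (f v) := by rw [hN]; simp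
    have hb : b ∈ (G.neighborFinset v).erase (f v) := by rw [hN]; simp
    rw [Finset.mem_erase, mem_neighborFinset] at ha hb
    refine ⟨a, b, ha.2, hb.2, hab, ha.1, hb.1, ?_⟩
    intro w hw
    by_cases hwf : w = f v
    · left; exact hwf
    · right
      have : w ∈ (G.neighborFinset v).erase (f v) := by
        rw [Finset.mem_erase, mem_neighborFinset]; exact ⟨hwf, hw⟩
      rw [hN, Finset.mem_insert, Finset.mem_singleton] at this
      exact this
  choose a b ha hb hab haf hbf hall using key
  let h : V → Bool → V := fun v i => if i then b v else a v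
  have hadj : ∀ v i, G.Adj v (h v i) := by
    intro v i; cases i
    · exact ha v
    · exact hb v
  have hm : ∀ v i, h v i ≠ f v := by
    intro v i; cases i
    · exact haf v
    · exact hbf v
  have hback : ∀ v i, v = h (h v i) false ∨ v = h (h v i) true := by
    intro v i
    rcases hall (h v i) v (hadj v i).symm with h3 | h3 | h3
    · exfalso
      apply hm v i
      rw [h3, h2, ← h3]
    · left; exact h3
    · right; exact h3
  let al : V × Bool → V × Bool := fun d => (h d.1 d.2, decide (h (h d.1 d.2) true = d.1))
  have al_h : ∀ d, h (al d).1 (al d).2 = d.1 := by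
    intro d
    show h (h d.1 d.2) (decide (h (h d.1 d.2) true = d.1)) = d.1
    by_cases h3 : h (h d.1 d.2) true = d.1
    · rw [decide_eq_true h3]; exact h3
    · rw [decide_eq_false h3]
      rcases hback d.1 d.2 with h4 | h4
      · exact h4.symm
      · exact absurd h4.symm h3
  have al_al : ∀ d, al (al d) = d := by
    intro d
    have h3 := al_h d
    refine Prod.ext h3 ?_
    show decide (h (h (al d).1 (al d).2) true = (al d).1) = d.2
    rw [h3]
    show decide (h d.1 true = h d.1 d.2) = d.2
    rcases d with ⟨v, i⟩
    cases i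
    · simp only [decide_eq_false_iff_not]
      exact (hab v).symm
    · simp
  refine ⟨{ m := f, h := h, al := al, madj := h1, hadj := hadj, mm := h2, hm := hm,
            hh := hab, all := ?_, al_fst := fun d => rfl, al_h := al_h, al_al := al_al }, fun v => rfl⟩
  intro v w hw
  rcases hall v w hw with h3 | h3 | h3
  · left; exact h3
  · right; exact ⟨false, h3⟩
  · right; exact ⟨true, h3⟩

end Pool.Agent.H40.PF
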