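import Mathlib
import Pool.Agent.H40.PF.Core

/-!
# Transitive choice of the switches; the closed walk
-/

namespace Pool.Agent.H40.PF

open Function

variable {V : Type*}

namespace Frame

variable {G : SimpleGraph V} (F : Frame G)

theorem exists_trans [Fintype V] (hG : G.Connected) :
    ∃ s : V → Bool, (∀ v, s (F.m v) = s v) ∧ ∀ x y, F.Reach s x y := by
  classical
  obtain ⟨v0⟩ := hG.nonempty
  let P : Finset (V → Bool) := Finset.univ.filter (fun s => ∀ v, s (F.m v) = s v)
  have hP : P.Nonempty := ⟨fun _ => false, by simp [P]⟩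
  let O : (V → Bool) → Finset (V × Bool) := fun s =>
    Finset.univ.filter (fun y => F.Reach s (v0, false) y)
  have memO : ∀ s y, y ∈ O s ↔ F.Reach s (v0, false) y := by intro s y; simp [O]
  obtain ⟨s, hsP, hmax⟩ := Finset.exists_max_image P (fun s => (O s).card) hP
  have hs : ∀ v, s (F.m v) = s v := by simpa [P] using hsP
  have h0 : (v0, false) ∈ O s := (memO _ _).2 Relation.ReflTransGen.refl
  -- both darts
  have hboth : ∀ v i, (v, i) ∈ O s → (v, !i) ∈ O s := by
    intro v i hv
    by_contra hcon
    have hv' := (memO _ _).1 hv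
    have hnot : ¬ F.Reach s (v, i) ((v, i).1, !(v, i).2) := by
      intro h
      apply hcon
      rw [memO]
      exact Relation.ReflTransGen.trans hv' h
    obtain ⟨h1, h2⟩ := F.merge hs hnot
    have hs' : ∀ w, F.sw s v (F.m w) = F.sw s v w := F.sw_m hs v
    have hd0 : F.Reach (F.sw s v) (v0, false) (v, i) := by
      apply Reach.symm' F hs'
      exact h1 _ (Reach.symm' F hs hv')
    have hsub : O s ⊆ O (F.sw s v) := by
      intro y hy
      rw [memO] at hy ⊢
      refine Relation.ReflTransGen.trans hd0 (h1 y ?_)
      exact Relation.ReflTransGen.trans (Reach.symm' F hs hv') hy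
    have hlt : (O s).card < (O (F.sw s v)).card := by
      apply Finset.card_lt_card
      refine ⟨hsub, fun h => hcon (h ?_)⟩
      rw [memO]
      exact Relation.ReflTransGen.trans hd0 h2
    have := hmax (F.sw s v) (by simp only [P, Finset.mem_filter, Finset.mem_univ, true_and]; exact hs')
    omega
  have hboth' : ∀ v i j, (v, i) ∈ O s → (v, j) ∈ O s := by
    intro v i j h
    by_cases hij : j = i
    · rw [hij]; exact h
    · have : j = !i := by cases i <;> cases j <;> simp_all
      rw [this]; exact hboth v i h
  have hstep : ∀ x y, F.Step s x y → x ∈ O s → y ∈ O s := by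
    intro x y hxy hx
    rw [memO] at hx ⊢
    exact Relation.ReflTransGen.tail hx hxy
  have hadj : ∀ v w, G.Adj v w → (v, false) ∈ O s → (w, false) ∈ O s := by
    intro v w hvw hv
    rcases F.all v w hvw with h | ⟨i, h⟩
    · have h1 := hstep _ _ (Or.inr rfl) hv
      refine hboth' w (F.be s (v, false)).2 false ?_
      rw [h]
      exact h1
    · have h1 := hstep (v, i) _ (Or.inl rfl) (hboth' v false i hv)
      refine hboth' w (F.al (v, i)).2 false ?_
      rw [h, show F.h v i = (F.al (v, i)).1 from (F.al_fst (v, i)).symm]
      exact h1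
  have hallv : ∀ v, (v, false) ∈ O s := by
    intro v
    have key : ∀ a b : V, G.Walk a b → (a, false) ∈ O s → (b, false) ∈ O s := by
      intro a b p
      induction p with
      | nil => exact id
      | cons hvw p ih => exact fun ha => ih (hadj _ _ hvw ha)
    obtain ⟨p⟩ := hG.preconnected v0 v
    exact key v0 v p h0
  refine ⟨s, hs, ?_⟩
  have hall : ∀ y, F.Reach s (v0, false) y := fun y => (memO _ _).1 (hboth' y.1 false y.2 (hallv y.1))
  intro x y
  exact Relation.ReflTransGen.trans (Reach.symm' F hs (hall x)) (hall y)

end Frame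

end Pool.Agent.H40.PF
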