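import Mathlib
import Pool.Agent.H40.PF.Walk

/-!
# The closed walk as a bijection from positions to darts
-/

namespace Pool.Agent.H40.PF

open Function

variable {V : Type*}

namespace Frame

variable {G : SimpleGraph V} (F : Frame G)

/-- one full turn -/
def rho (s : V → Bool) (d : V × Bool) : V × Bool := F.be s (F.al d)

theorem rho_inj {s : V → Bool} (hs : ∀ v, s (F.m v) = s v) : Injective (F.rho s) := by
  intro x y h
  unfold rho at h
  have h1 : F.al x = F.al y := by rw [← F.be_be hs (F.al x), h, F.be_be hs]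
  rw [← F.al_al x, h1, F.al_al]

theorem al_be_rho {s : V → Bool} (hs : ∀ v, s (F.m v) = s v) (z : V × Bool) :
    F.al (F.be s (F.rho s z)) = z := by
  unfold rho
  rw [F.be_be hs, F.al_al]

theorem al_ne_iter {s : V → Bool} (hs : ∀ v, s (F.m v) = s v) :
    ∀ (n : ℕ) (x : V × Bool), F.al x ≠ (F.rho s)^[n] x := by
  intro n
  induction n using Nat.strong_induction_on with
  | _ n ih =>
    intro x
    match n with
    | 0 => exact F.al_ne x
    | 1 =>
      intro h
      rw [iterate_one] at h
      exact F.be_ne s (F.al x) h.symm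
    | n + 2 =>
      intro h
      rw [iterate_succ_apply'] at h
      have h1 : (F.rho s)^[n + 1] x = (F.rho s)^[n] (F.rho s x) := iterate_succ_apply _ _ _
      rw [h1] at h
      refine ih n (by omega) (F.rho s x) ?_
      have h2 : F.rho s x = F.be s (F.al x) := rfl
      have h3 : F.al (F.rho s x) = F.al (F.be s (F.rho s ((F.rho s)^[n] (F.rho s x)))) := by
        rw [← h, ← h2]
      rw [h3, F.al_be_rho hs]

/-- the sequence of darts -/
def seq (s : V → Bool) (d : V × Bool) (n : ℕ) : V × Bool :=
  if n % 2 = 0 then (F.rho s)^[n / 2] d else F.al ((F.rho s)^[n / 2] d)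

theorem seq_even (s : V → Bool) (d : V × Bool) (j : ℕ) :
    F.seq s d (2 * j) = (F.rho s)^[j] d := by
  unfold seq
  rw [if_pos (by omega), show 2 * j / 2 = j by omega]

theorem seq_odd (s : V → Bool) (d : V × Bool) (j : ℕ) :
    F.seq s d (2 * j + 1) = F.al ((F.rho s)^[j] d) := by
  unfold seq
  rw [if_neg (by omega), show (2 * j + 1) / 2 = j by omega]

theorem seq_step_even (s : V → Bool) (d : V × Bool) (j : ℕ) :
    F.seq s d (2 * j + 1) = F.al (F.seq s d (2 * j)) := by
  rw [seq_even, seq_odd]

theorem seq_step_odd (s : V → Bool) (d : V × Bool) (j : ℕ) :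
    F.seq s d (2 * j + 2) = F.be s (F.seq s d (2 * j + 1)) := by
  rw [seq_odd, show 2 * j + 2 = 2 * (j + 1) by ring, seq_even, iterate_succ_apply']
  rfl

theorem seq_adj (s : V → Bool) (d : V × Bool) (n : ℕ) :
    G.Adj (F.seq s d n).1 (F.seq s d (n + 1)).1 := by
  rcases Nat.even_or_odd' n with ⟨j, h | h⟩
  · rw [h, seq_step_even, F.al_fst]
    exact F.hadj _ _
  · rw [h, show 2 * j + 1 + 1 = 2 * j + 2 by ring, seq_step_odd, F.be_fst]
    exact F.madj _

theorem seq_ne (s : V → Bool) (d : V × Bool) (n : ℕ) :
    (F.seq s d n).1 ≠ (F.seq s d (n + 2)).1 := by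
  rcases Nat.even_or_odd' n with ⟨j, h | h⟩
  · rw [h, seq_step_odd, seq_step_even, F.be_fst, F.al_fst]
    generalize F.seq s d (2 * j) = x
    intro h1
    have h2 : F.m x.1 = F.h x.1 x.2 := by
      conv_lhs => rw [h1]
      rw [F.mm]
    exact F.hm _ _ h2.symm
  · have h5 := F.seq_step_even s d (j + 1)
    have h6 := F.seq_step_odd s d j
    rw [show 2 * j + 2 = 2 * (j + 1) by ring] at h6
    rw [h, show 2 * j + 1 + 2 = 2 * (j + 1) + 1 by ring, h5, h6, F.al_fst, F.be_fst]
    generalize F.seq s d (2 * j + 1) = x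
    intro h1
    have h2 := F.hm (F.m x.1) (F.be s x).2
    rw [F.mm] at h2
    exact h2 h1.symm

theorem seq_bij [Fintype V] {s : V → Bool} (hs : ∀ v, s (F.m v) = s v)
    (hT : ∀ x y, F.Reach s x y) (d : V × Bool) :
    ∃ T : Fin (2 * Fintype.card V) ≃ V × Bool, ∀ i, T i = F.seq s d i := by
  classical
  set r := F.rho s with hr
  have hinj := F.rho_inj hs
  have hper : d ∈ periodicPts r := by
    have := Function.Injective.mem_periodicPts (f := r) hinj d
    exact this
  set k := minimalPeriod r d with hk
  have hkpos : 0 < k := minimalPeriod_pos_of_mem_periodicPts hper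
  have hiter : ∀ n, r^[n + k] d = r^[n] d := by
    intro n
    rw [iterate_add_apply, hk, iterate_minimalPeriod]
  -- the map
  let T0 : Fin (2 * k) → V × Bool := fun i => F.seq s d i
  have hlt : ∀ n, ∃ i : Fin (2 * k), T0 i = r^[n] d := by
    intro n
    refine ⟨⟨2 * (n % k), by have := Nat.mod_lt n hkpos; omega⟩, ?_⟩
    show F.seq s d (2 * (n % k)) = _
    rw [seq_even, ← hr, hk, iterate_mod_minimalPeriod_eq]
  have hlt' : ∀ n, ∃ i : Fin (2 * k), T0 i = F.al (r^[n] d) := by
    intro n
    refine ⟨⟨2 * (n % k) + 1, by have := Nat.mod_lt n hkpos; omega⟩, ?_⟩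
    show F.seq s d (2 * (n % k) + 1) = _
    rw [seq_odd, ← hr, hk, iterate_mod_minimalPeriod_eq]
  have hsurj : Surjective T0 := by
    intro y
    have hy : F.Reach s d y := hT d y
    have key : (∃ n, y = r^[n] d) ∨ (∃ n, y = F.al (r^[n] d)) := by
      unfold Reach at hy
      induction hy with
      | refl => left; exact ⟨0, rfl⟩
      | tail _ h2 ih =>
        rename_i b c
        rcases ih with ⟨n, hn⟩ | ⟨n, hn⟩
        · rcases h2 with h2 | h2
          · right; exact ⟨n, by rw [h2, hn]⟩
          · right
            refine ⟨n + (k - 1), ?_⟩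
            rw [h2, hn]
            have h3 : r^[n] d = F.be s (F.al (r^[n + (k - 1)] d)) := by
              have h4 : r^[n] d = r^[n + (k - 1) + 1] d := by
                rw [show n + (k - 1) + 1 = n + k by omega, hiter]
              rw [h4, iterate_succ_apply']
              rfl
            rw [h3, F.be_be hs]
        · rcases h2 with h2 | h2
          · left; exact ⟨n, by rw [h2, hn, F.al_al]⟩
          · left
            refine ⟨n + 1, ?_⟩
            rw [h2, hn, iterate_succ_apply']
            rfl
    rcases key with ⟨n, hn⟩ | ⟨n, hn⟩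
    · obtain ⟨i, hi⟩ := hlt n
      exact ⟨i, by rw [hi, hn]⟩
    · obtain ⟨i, hi⟩ := hlt' n
      exact ⟨i, by rw [hi, hn]⟩
  have hinj1 : ∀ a b, a < k → b < k → r^[a] d = r^[b] d → a = b := by
    intro a b ha hb h
    exact iterate_injOn_Iio_minimalPeriod (by simpa using ha) (by simpa using hb) h
  have hcross : ∀ a b, a < k → b < k → F.al (r^[a] d) ≠ r^[b] d := by
    intro a b ha hb h
    have h1 : r^[b] d = r^[b + k - a] (r^[a] d) := by
      rw [← iterate_add_apply, show b + k - a + a = b + k by omega, hiter]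
    rw [h1] at h
    exact F.al_ne_iter hs _ _ h
  have hinjT : Injective T0 := by
    intro i j hij
    have hi := i.2
    have hj := j.2
    apply Fin.ext
    rcases Nat.even_or_odd' i.1 with ⟨a, ha | ha⟩ <;> rcases Nat.even_or_odd' j.1 with ⟨b, hb | hb⟩
    · have h1 : r^[a] d = r^[b] d := by
        have : F.seq s d i.1 = F.seq s d j.1 := hij
        rw [ha, hb, seq_even, seq_even] at this
        exact this
      have := hinj1 a b (by omega) (by omega) h1
      omega
    · exfalso
      have : F.seq s d i.1 = F.seq s d j.1 := hij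
      rw [ha, hb, seq_even, seq_odd] at this
      exact hcross b a (by omega) (by omega) this.symm
    · exfalso
      have : F.seq s d i.1 = F.seq s d j.1 := hij
      rw [ha, hb, seq_even, seq_odd] at this
      exact hcross a b (by omega) (by omega) this
    · have h1 : F.al (r^[a] d) = F.al (r^[b] d) := by
        have : F.seq s d i.1 = F.seq s d j.1 := hij
        rw [ha, hb, seq_odd, seq_odd] at this
        exact this
      have h2 : r^[a] d = r^[b] d := by rw [← F.al_al (r^[a] d), h1, F.al_al]
      have := hinj1 a b (by omega) (by omega) h2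
      omega
  have hcard : 2 * k = 2 * Fintype.card V := by
    have := Fintype.card_of_bijective ⟨hinjT, hsurj⟩
    rw [Fintype.card_fin, Fintype.card_prod, Fintype.card_bool] at this
    omega
  refine ⟨(finCongr hcard.symm).trans (Equiv.ofBijective T0 ⟨hinjT, hsurj⟩), ?_⟩
  intro i
  rfl

end Frame

end Pool.Agent.H40.PF
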