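import Mathlib
import Pool.Agent.H40.PF.Seq
import Pool.Agent.H40.PF.Petersen

/-!
# Families of three-vertex paths covering every vertex exactly `k` times
-/

namespace Pool.Agent.H40.PF

open SimpleGraph

variable {V : Type*}

/-- `(a, b, c)` is a three-vertex path `a - b - c` of `G` -/
def IsP3 (G : SimpleGraph V) (p : V × V × V) : Prop :=
  G.Adj p.1 p.2.1 ∧ G.Adj p.2.1 p.2.2 ∧ p.1 ≠ p.2.2

/-- `v` is a vertex of the path `p` -/
def On (v : V) (p : V × V × V) : Prop := v = p.1 ∨ v = p.2.1 ∨ v = p.2.2

/-- the edge `xy` is an edge of the path `p` -/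
def Uses (p : V × V × V) (x y : V) : Prop := s(x, y) = s(p.1, p.2.1) ∨ s(x, y) = s(p.2.1, p.2.2)

instance [DecidableEq V] (v : V) : DecidablePred (On v) := fun p => by unfold On; infer_instance

/-- a `k`-fold `P₃`-factor: a multiset of three-vertex paths of `G` such that every vertex is on
exactly `k` of them -/
def IsFold [DecidableEq V] (G : SimpleGraph V) (k : ℕ) (P : Multiset (V × V × V)) : Prop :=
  (∀ p ∈ P, IsP3 G p) ∧ ∀ v, P.countP (On v) = k

variable [DecidableEq V] {G : SimpleGraph V}

theorem IsFold.add {k l : ℕ} {P Q : Multiset (V × V × V)} (hP : IsFold G k P)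
    (hQ : IsFold G l Q) : IsFold G (k + l) (P + Q) := by
  refine ⟨?_, ?_⟩
  · intro p hp
    rw [Multiset.mem_add] at hp
    rcases hp with hp | hp
    · exact hP.1 p hp
    · exact hQ.1 p hp
  · intro v
    rw [Multiset.countP_add, hP.2, hQ.2]

theorem IsFold.nsmul {k : ℕ} {P : Multiset (V × V × V)} (hP : IsFold G k P) (a : ℕ) :
    IsFold G (a * k) (a • P) := by
  refine ⟨?_, ?_⟩
  · intro p hp
    exact hP.1 p (Multiset.mem_of_mem_nsmul hp)
  · intro v
    rw [Multiset.countP_nsmul, hP.2]

theorem IsFold.map {k : ℕ} {P : Multiset (V × V × V)} (hP : IsFold G k P)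
    (g : V × V × V → V × V × V) (h1 : ∀ p, IsP3 G p → IsP3 G (g p))
    (h2 : ∀ v p, On v (g p) ↔ On v p) : IsFold G k (P.map g) := by
  refine ⟨?_, ?_⟩
  · intro p hp
    rw [Multiset.mem_map] at hp
    obtain ⟨q, hq, rfl⟩ := hp
    exact h1 q (hP.1 q hq)
  · intro v
    rw [← hP.2 v, Multiset.countP_map, Multiset.countP_eq_card_filter]
    congr 1
    exact Multiset.filter_congr (fun p _ => h2 v p)

/-- orientation of a path can be changed -/
theorem IsFold.flip {k : ℕ} {P : Multiset (V × V × V)} (hP : IsFold G k P) {x y z : V}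
    (h : (z, y, x) ∈ P) : ∃ Q, IsFold G k Q ∧ (x, y, z) ∈ Q := by
  refine ⟨P.map (fun p => (p.2.2, p.2.1, p.1)), hP.map _ ?_ ?_, ?_⟩
  · rintro p ⟨h1, h2, h3⟩
    exact ⟨h2.symm, h1.symm, h3.symm⟩
  · intro v p
    unfold On
    constructor
    · rintro (h | h | h)
      · exact Or.inr (Or.inr h)
      · exact Or.inr (Or.inl h)
      · exact Or.inl h
    · rintro (h | h | h)
      · exact Or.inr (Or.inr h)
      · exact Or.inr (Or.inl h)
      · exact Or.inl h
  · rw [Multiset.mem_map]
    exact ⟨(z, y, x), h, rfl⟩

/-- counting incidences -/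
theorem sum_countP [Fintype V] (P : Multiset (V × V × V)) (hP : ∀ p ∈ P, IsP3 G p) :
    ∑ v, P.countP (On v) = 3 * Multiset.card P := by
  induction P using Multiset.induction_on with
  | empty => simp
  | cons p Q ih =>
    have h1 := ih (fun q hq => hP q (Multiset.mem_cons_of_mem hq))
    have hp := hP p (Multiset.mem_cons_self p Q)
    have h2 : ∀ v, (p ::ₘ Q).countP (On v) = Q.countP (On v) + if On v p then 1 else 0 :=
      fun v => Multiset.countP_cons _ _ _
    simp only [h2, Finset.sum_add_distrib, h1, Multiset.card_cons]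
    have h3 : ∑ v, (if On v p then 1 else 0) = 3 := by
      rw [← Finset.card_filter]
      have h4 : (Finset.univ : Finset V).filter (fun v => On v p) = {p.1, p.2.1, p.2.2} := by
        ext v
        rw [Finset.mem_filter, Finset.mem_insert, Finset.mem_insert, Finset.mem_singleton]
        exact ⟨fun h => h.2, fun h => ⟨Finset.mem_univ _, h⟩⟩
      rw [h4, Finset.card_insert_of_notMem, Finset.card_pair hp.2.1.ne]
      rw [Finset.mem_insert, Finset.mem_singleton, not_or]
      exact ⟨hp.1.ne, hp.2.2⟩
    rw [h3]; ring

theorem IsFold.dvd [Fintype V] {k : ℕ} {P : Multiset (V × V × V)} (hP : IsFold G k P) :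
    3 ∣ k * Fintype.card V := by
  have h := sum_countP P hP.1
  simp only [hP.2, Finset.sum_const, Finset.card_univ, smul_eq_mul] at h
  exact ⟨_, by rw [mul_comm]; exact h⟩

variable [Fintype V] (F : Frame G)

/-- the three-fold family of a frame -/
def tri (F : Frame G) : Multiset (V × V × V) :=
  (Finset.univ : Finset V).val.map (fun v => (F.h v false, v, F.h v true))

theorem isFold_tri : IsFold G 3 (tri F) := by
  refine ⟨?_, ?_⟩
  · intro p hp
    unfold tri at hp
    rw [Multiset.mem_map] at hp
    obtain ⟨v, -, rfl⟩ := hp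
    exact ⟨(F.hadj v false).symm, F.hadj v true, F.hh v⟩
  · intro v
    unfold tri
    rw [Multiset.countP_map]
    have hset : (Finset.univ : Finset V).filter (fun w => On v (F.h w false, w, F.h w true)) =
        {v, F.h v false, F.h v true} := by
      ext w
      rw [Finset.mem_filter, Finset.mem_insert, Finset.mem_insert, Finset.mem_singleton]
      have hb : ∀ i w v, v = F.h w i → w = F.h v false ∨ w = F.h v true := by
        intro i w v h
        have h1 := F.al_h (w, i)
        have h2 := F.al_fst (w, i)
        simp only at h1 h2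
        rw [h2, ← h] at h1
        cases h3 : (F.al (w, i)).2
        · rw [h3] at h1; left; exact h1.symm
        · rw [h3] at h1; right; exact h1.symm
      constructor
      · rintro ⟨-, h | h | h⟩
        · exact Or.inr (hb _ _ _ h)
        · exact Or.inl h.symm
        · exact Or.inr (hb _ _ _ h)
      · intro h
        refine ⟨Finset.mem_univ _, ?_⟩
        rcases h with h | h
        · exact Or.inr (Or.inl h.symm)
        · have h4 : v = F.h w false ∨ v = F.h w true := by
            rcases h with h | h
            · exact hb _ _ _ h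
            · exact hb _ _ _ h
          rcases h4 with h4 | h4
          · exact Or.inl h4
          · exact Or.inr (Or.inr h4)
    have hcard : ({v, F.h v false, F.h v true} : Finset V).card = 3 := by
      rw [Finset.card_insert_of_notMem, Finset.card_pair (F.hh v)]
      rw [Finset.mem_insert, Finset.mem_singleton, not_or]
      exact ⟨(F.h_ne v false).symm, (F.h_ne v true).symm⟩
    rw [← hcard, ← hset]
    rfl

/-- the two-fold family of a frame -/
theorem exists_two (hG : G.Connected) (h3 : 3 ∣ Fintype.card V) :
    ∃ s : V → Bool, (∀ v, s (F.m v) = s v) ∧ ∀ d : V × Bool, ∃ P : Multiset (V × V × V),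
      IsFold G 2 P ∧ ((F.seq s d 0).1, (F.seq s d 1).1, (F.seq s d 2).1) ∈ P ∧
      (∀ p ∈ P, ∃ j < 2 * Fintype.card V / 3, p =
        ((F.seq s d (3 * j)).1, (F.seq s d (3 * j + 1)).1, (F.seq s d (3 * j + 2)).1)) ∧
      (∀ i j, i < 2 * Fintype.card V → j < 2 * Fintype.card V → F.seq s d i = F.seq s d j →
        i = j) := by
  classical
  obtain ⟨s, hs, hT⟩ := F.exists_trans hG
  refine ⟨s, hs, fun d => ?_⟩
  obtain ⟨T, hTs⟩ := F.seq_bij hs hT d
  obtain ⟨c, hc⟩ := h3
  have hV : 0 < Fintype.card V := by
    obtain ⟨v⟩ := hG.nonempty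
    exact Fintype.card_pos_iff.2 ⟨v⟩
  have h2c : 2 * Fintype.card V / 3 = 2 * c := by rw [hc]; omega
  let trip : ℕ → V × V × V := fun j =>
    ((F.seq s d (3 * j)).1, (F.seq s d (3 * j + 1)).1, (F.seq s d (3 * j + 2)).1)
  refine ⟨(Multiset.range (2 * c)).map trip, ⟨?_, ?_⟩, ?_, ?_, ?_⟩
  · intro p hp
    rw [Multiset.mem_map] at hp
    obtain ⟨j, -, rfl⟩ := hp
    refine ⟨F.seq_adj s d (3 * j), F.seq_adj s d (3 * j + 1), F.seq_ne s d (3 * j)⟩
  · intro v
    rw [Multiset.countP_map]
    -- the two positions of v
    have hinj : ∀ i j, i < 2 * Fintype.card V → j < 2 * Fintype.card V →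
        F.seq s d i = F.seq s d j → i = j := by
      intro i j hi hj h
      have h1 := hTs ⟨i, hi⟩
      have h2 := hTs ⟨j, hj⟩
      have h4 : T ⟨i, hi⟩ = T ⟨j, hj⟩ := by rw [h1, h2]; exact h
      have := T.injective h4
      exact congrArg Fin.val this
    have hcount : ((Finset.range (2 * Fintype.card V)).filter
        (fun i => (F.seq s d i).1 = v)).card = 2 := by
      have h1 : ((Finset.range (2 * Fintype.card V)).filter
        (fun i => (F.seq s d i).1 = v)) =
          ({(v, false), (v, true)} : Finset (V × Bool)).image (fun d => (T.symm d).1) := by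
        ext i
        rw [Finset.mem_filter, Finset.mem_range, Finset.mem_image]
        constructor
        · rintro ⟨hi, h⟩
          refine ⟨F.seq s d i, ?_, ?_⟩
          · rw [Finset.mem_insert, Finset.mem_singleton]
            rcases h5 : F.seq s d i with ⟨a, b⟩
            rw [h5] at h
            simp only at h
            subst h
            cases b
            · left; rfl
            · right; rfl
          · have := hTs ⟨i, hi⟩
            simp only at this
            rw [← this, Equiv.symm_apply_apply]
        · rintro ⟨e, he, rfl⟩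
          refine ⟨(T.symm e).2, ?_⟩
          rw [← hTs, Equiv.apply_symm_apply]
          rw [Finset.mem_insert, Finset.mem_singleton] at he
          rcases he with rfl | rfl <;> rfl
      rw [h1, Finset.card_image_of_injective]
      · rw [Finset.card_pair]
        intro h
        rw [Prod.mk.injEq] at h
        exact Bool.false_ne_true h.2
      · intro a b h
        exact T.symm.injective (Fin.ext h)
    refine Eq.trans ?_ hcount
    -- bijection j ↦ the position
    have h2 : ((Finset.range (2 * Fintype.card V)).filter (fun i => (F.seq s d i).1 = v)).card =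
        ((Finset.range (2 * c)).filter (fun j => On v (trip j))).card := by
      refine Finset.card_bij (fun i _ => i / 3) ?_ ?_ ?_
      · intro i hi
        rw [Finset.mem_filter, Finset.mem_range] at hi ⊢
        refine ⟨by omega, ?_⟩
        unfold On
        have h5 : i = 3 * (i / 3) ∨ i = 3 * (i / 3) + 1 ∨ i = 3 * (i / 3) + 2 := by omega
        simp only [trip]
        rcases h5 with h5 | h5 | h5
        · left; rw [← h5]; exact hi.2.symm
        · right; left; rw [← h5]; exact hi.2.symm
        · right; right; rw [← h5]; exact hi.2.symm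
      · intro i hi j hj hij
        rw [Finset.mem_filter, Finset.mem_range] at hi hj
        by_contra hne
        have hseq : (F.seq s d i).1 = (F.seq s d j).1 := by rw [hi.2, hj.2]
        have key : ∀ a b, a / 3 = b / 3 → a < b → (F.seq s d a).1 ≠ (F.seq s d b).1 := by
          intro a b hab hlt
          have h6 : b = a + 1 ∨ b = a + 2 := by omega
          rcases h6 with rfl | rfl
          · exact (F.seq_adj s d a).ne
          · exact F.seq_ne s d a
        rcases Nat.lt_or_gt_of_ne hne with h7 | h7
        · exact key i j hij h7 hseq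
        · exact key j i hij.symm h7 hseq.symm
      · intro j hj
        rw [Finset.mem_filter, Finset.mem_range] at hj
        obtain ⟨hj1, hj2⟩ := hj
        unfold On at hj2
        simp only [trip] at hj2
        rcases hj2 with h | h | h
        · exact ⟨3 * j, by rw [Finset.mem_filter, Finset.mem_range]; exact ⟨by omega, h.symm⟩,
            by omega⟩
        · exact ⟨3 * j + 1, by rw [Finset.mem_filter, Finset.mem_range]; exact ⟨by omega, h.symm⟩,
            by omega⟩
        · exact ⟨3 * j + 2, by rw [Finset.mem_filter, Finset.mem_range]; exact ⟨by omega, h.symm⟩,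
            by omega⟩
    rw [h2]
    rfl
  · rw [Multiset.mem_map]
    refine ⟨0, ?_, rfl⟩
    rw [Multiset.mem_range]
    omega
  · intro p hp
    rw [Multiset.mem_map] at hp
    obtain ⟨j, hj, rfl⟩ := hp
    rw [Multiset.mem_range] at hj
    exact ⟨j, by omega, rfl⟩
  · intro i j hi hj h
    have h1 := hTs ⟨i, hi⟩
    have h2 := hTs ⟨j, hj⟩
    have h4 : T ⟨i, hi⟩ = T ⟨j, hj⟩ := by rw [h1, h2]; exact h
    have := T.injective h4
    exact congrArg Fin.val this

end Pool.Agent.H40.PF
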